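import Pool.Agent.Lib_helper82.BR.Statement

/-! # Minimal Brody sets of surfaces are algebraic (MP_45e720_ag): definitions for the statement

The complex manifolds are as in `Pool.Agent.Lib_helper82.BR.Statement`: charted spaces over a
finite-dimensional complex normed space `E` with analytic transition maps. -/

set_option autoImplicit false

open Filter Topology Metric Set
open scoped Manifold ContDiff

namespace Pool.Agent.MinBrody

section

variable (E : Type) {X : Type} [NormedAddCommGroup E] [NormedSpace ℂ E] [TopologicalSpace X]
  [ChartedSpace E X]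

/-- `c` is (the representative of) a germ of a holomorphic curve in `X`: it is holomorphic near
the origin -/
def IsGerm (c : ℂ → X) : Prop := ∀ᶠ z in 𝓝 (0 : ℂ), MDifferentiableAt 𝓘(ℂ, ℂ) 𝓘(ℂ, E) c z

/-- the `k`-jet at the origin of the curve `c` in the chart at `y`: the derivatives of the orders
`0, …, k` -/
noncomputable def chartJet (k : ℕ) (y : X) (c : ℂ → X) : Fin (k + 1) → E :=
  fun q => iteratedDeriv q (fun z => chartAt E y (c z)) 0

/-- `P` is an invariant jet differential of order `k` and weight `m` on `X` (Demailly, Semple): a
holomorphic function of the `k`-jets of germs of holomorphic curves, which is multiplied by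
`(ψ' 0) ^ m` under a reparametrisation `ψ`, and which vanishes on the germs with derivative zero
(the last property is automatic for `m > 0`). -/
structure IsInvariantJetDifferential (k m : ℕ) (P : (ℂ → X) → ℂ) : Prop where
  hol : ∀ y : X, ∃ Q : (Fin (k + 1) → E) → ℂ,
    (∀ J, J 0 ∈ (chartAt E y).target → AnalyticAt ℂ Q J) ∧
    ∀ c, IsGerm E c → c 0 ∈ (chartAt E y).source → P c = Q (chartJet E k y c)
  inv : ∀ c, IsGerm E c → ∀ ψ : ℂ → ℂ, AnalyticAt ℂ ψ 0 → ψ 0 = 0 →
    P (c ∘ ψ) = (deriv ψ 0) ^ m * P c
  stat : ∀ c, IsGerm E c → ∀ y : X, c 0 ∈ (chartAt E y).source →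
    deriv (fun z => chartAt E y (c z)) 0 = 0 → P c = 0

variable (X) in
/-- `X` has a nonzero invariant jet differential of some order and positive weight. All surfaces of
general type have this property (Green and Griffiths 1979). -/
def HasInvariantJetDifferential : Prop :=
  ∃ (k m : ℕ) (P : (ℂ → X) → ℂ), 0 < m ∧ IsInvariantJetDifferential E k m P ∧
    ∃ c, IsGerm E c ∧ P c ≠ 0

end

section

variable {X : Type} [TopologicalSpace X]

/-- `g` is a limit of translates of `f` (for Brody curves pointwise convergence is locally uniform
convergence) -/
def IsTranslateLimit (f g : ℂ → X) : Prop :=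
  ∃ z : ℕ → ℂ, ∀ w, Tendsto (fun n => f (z n + w)) atTop (𝓝 (g w))

/-- `f` is uniformly nonconstant: no limit of translates of `f` is constant -/
def UniformlyNonconstant (f : ℂ → X) : Prop :=
  ∀ g : ℂ → X, IsTranslateLimit f g → ∃ z z', g z ≠ g z'

/-- the image of the curve `g` is the image of a closed disc: for a nonconstant entire curve in a
compact manifold this means that the image of `g` is a compact analytic curve -/
def HasCompactImage (g : ℂ → X) : Prop := ∃ R : ℝ, range g = g '' closedBall 0 R

end

end Pool.Agent.MinBrody
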