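import Pool.Agent.Lib_helper58.MBS.Defs
import Pool.Agent.Lib_helper58.MBS.Notions

/-! # Minimal Brody sets: definitions and basic lemmas used by all blocks (MP_45e720_ag) -/

set_option autoImplicit false
set_option linter.unusedSectionVars false
set_option linter.unusedVariables false

open Filter Topology Metric Set

namespace Pool.Agent.MBS

open Pool.Agent.BR

/-- the branch near `u` of the `a`-th root of `u ^ a + δ` -/
noncomputable def Wr (a : ℕ) (u δ : ℂ) : ℂ := u * Complex.exp (Complex.log (1 + δ / u ^ a) / a)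

section fam

variable {E X : Type} [NormedAddCommGroup E] [NormedSpace ℂ E] [FiniteDimensional ℂ E]
  [MetricSpace X] [CompactSpace X] {A : Cha E X} {C : ℝ} {M : Set (ℂ → X)}

theorem bf_tr {g : ℂ → X} (hg : g ∈ BF A C) (w : ℂ) : tr w g ∈ BF A C := by
  refine ⟨fun z => ?_, fun z i hi => ?_⟩
  · have h := hg.1 (z + w)
    have h1 : ContinuousAt (fun z : ℂ => z + w) z := by fun_prop
    refine ⟨ContinuousAt.comp (f := fun z : ℂ => z + w) (x := z) h.1 h1, fun i hi => ?_⟩
    have h2 : AnalyticAt ℂ (A.loc i g) ((fun z : ℂ => z + w) z) := h.2 i hi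
    exact h2.comp (f := fun z : ℂ => z + w) (by fun_prop)
  · have h1 : deriv (A.loc i (tr w g)) z = deriv (A.loc i g) (z + w) :=
      deriv_comp_add_const (f := A.loc i g) w z
    rw [h1]
    exact hg.2 (z + w) i hi

theorem min_compact (hM : Min A C M) : IsCompact M :=
  hM.closed.isCompact

theorem smp_tr {θ ε : ℝ} {g : ℂ → X} {w ζ : ℂ} : Smp θ ε (tr w g) ζ ↔ Smp θ ε g (ζ + w) := by
  constructor
  · intro h u hu
    have := h (u - w) (by rwa [show u - w - ζ = u - (ζ + w) by ring])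
    simpa [tr, show u - w - ζ = u - (ζ + w) by ring] using this
  · intro h u hu
    have := h (u + w) (by rwa [show u + w - (ζ + w) = u - ζ by ring])
    simpa [tr, show u + w - (ζ + w) = u - ζ by ring] using this

end fam

section jets

variable {E X : Type} [NormedAddCommGroup E] [NormedSpace ℂ E] [FiniteDimensional ℂ E]
  [MetricSpace X] [CompactSpace X] {A : Cha E X} {C : ℝ} {M : Set (ℂ → X)} {k m : ℕ}
  {P : (ℂ → X) → ℂ} {Q : A.ι → (Fin (k + 1) → E) → ℂ}

theorem jet_tr (i : A.ι) (f : ℂ → X) (z : ℂ) (q : ℕ) :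
    iteratedDeriv q (A.loc i (tr z f)) 0 = iteratedDeriv q (A.loc i f) z := by
  have h : A.loc i (tr z f) = fun w => A.loc i f (w + z) := rfl
  rw [h, iteratedDeriv_comp_add_const]
  simp

theorem ger_tr {f : ℂ → X} (hf : f ∈ BF A C) (z : ℂ) : Ger A (tr z f) :=
  Eventually.of_forall (bf_tr hf z).1

end jets

section win

variable {E X : Type} [NormedAddCommGroup E] [NormedSpace ℂ E] [FiniteDimensional ℂ E]
  [MetricSpace X] [CompactSpace X] {A : Cha E X} {C lam L : ℝ} {M : Set (ℂ → X)} {k : ℕ}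

theorem win_uniq {f : ℂ → X} {z₀ : ℂ} {i : A.ι} {l : E →L[ℂ] ℂ} {r ρ B : ℝ} {V : Set (ℂ → X)}
    {u : (ℂ → X) → ℂ → ℂ} (hW : Win A M f z₀ i l lam r ρ B V u) {h : ℂ → X} (hh : h ∈ V) {z : ℂ}
    (hz : z ∈ ball z₀ r) (hx : l (A.loc i h z) ∈ ball (l (A.loc i f z₀)) ρ) :
    z = u h (l (A.loc i h z)) := by
  have h1 := hW.lo h hh z hz _ (hW.mem h hh _ hx)
  rw [hW.eq h hh _ hx, sub_self, norm_zero, mul_zero] at h1
  exact sub_eq_zero.1 (norm_le_zero_iff.1 h1)

end win

section sec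

variable {E X : Type} [NormedAddCommGroup E] [NormedSpace ℂ E] [FiniteDimensional ℂ E]
  [MetricSpace X] [CompactSpace X] {A : Cha E X} {C lam L : ℝ} {M : Set (ℂ → X)} {k N : ℕ}

/-- the situation of the section: the curves `h n` converge to `f`, and their displacement is
`m n` near all noncritical points of `f` -/
structure Sit (A : Cha E X) (M : Set (ℂ → X)) {κ : Type} (U : Ultrafilter κ) (f : ℂ → X)
    (h : κ → ℂ → X) (m : κ → ℝ) : Prop where
  f_mem : f ∈ M
  h_mem : ∀ᶠ n in (U : Filter κ), h n ∈ M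
  lim : Tendsto h U (𝓝 f)
  m_nonneg : ∀ n, 0 ≤ m n
  m_pos : ∀ᶠ n in (U : Filter κ), 0 < m n
  m_lim : Tendsto m U (𝓝 0)
  nn : ∀ z, NC A f z → NN (U : Filter κ) (fun _ => f) h m z

end sec

/-- the metric of `X` is locally bi-Lipschitz to the charts -/
def LocLip (E : Type) {X : Type} [NormedAddCommGroup E] [NormedSpace ℂ E] [MetricSpace X]
    [ChartedSpace E X] : Prop :=
  ∀ x : X, ∃ V ∈ 𝓝 x, ∃ L : ℝ, V ⊆ (chartAt E x).source ∧ ∀ y ∈ V, ∀ y' ∈ V,
    ‖chartAt E x y - chartAt E x y'‖ ≤ L * dist y y' ∧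
    dist y y' ≤ L * ‖chartAt E x y - chartAt E x y'‖

end Pool.Agent.MBS
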