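import Pool.Agent.Lib_helper82.BR.Top

/-! # Minimal Brody sets of surfaces are algebraic (MP_45e720_ag): definitions used in the proof -/

set_option autoImplicit false

open Filter Topology Metric Set

namespace Pool.Agent.MBS

open Pool.Agent.BR

section fam

variable {E X : Type} [NormedAddCommGroup E] [NormedSpace ℂ E] [MetricSpace X]

/-- translation of time -/
def tr (w : ℂ) (g : ℂ → X) : ℂ → X := fun z => g (z + w)

/-- the entire curves with derivative bounded by `C` -/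
def BF (A : Cha E X) (C : ℝ) : Set (ℂ → X) :=
  {g | (∀ z, A.HolAt g z) ∧ ∀ z i, g z ∈ A.W i → ‖deriv (A.loc i g) z‖ ≤ C}

/-- the metric of `X` is bi-Lipschitz to the charts near the cores of the atlas -/
structure BLip (A : Cha E X) (lam L : ℝ) : Prop where
  lam_pos : 0 < lam
  L_one : 1 ≤ L
  leb : ∀ x, ∃ i, ball x lam ⊆ A.W i
  src : ∀ i, ∀ x ∈ closure (A.W i), ball x lam ⊆ (A.ch i).source
  ch_le : ∀ i, ∀ x ∈ closure (A.W i), ∀ y ∈ ball x lam, ∀ y' ∈ ball x lam,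
    ‖A.ch i y - A.ch i y'‖ ≤ L * dist y y'
  le_ch : ∀ i, ∀ x ∈ closure (A.W i), ∀ y ∈ ball x lam, ∀ y' ∈ ball x lam,
    dist y y' ≤ L * ‖A.ch i y - A.ch i y'‖

/-- a minimal closed translation invariant set of Brody curves which contains no constant -/
structure Min (A : Cha E X) (C : ℝ) (M : Set (ℂ → X)) : Prop where
  sub : M ⊆ BF A C
  closed : IsClosed M
  ne : M.Nonempty
  inv : ∀ g ∈ M, ∀ w, tr w g ∈ M
  min : ∀ N ⊆ M, IsClosed N → N.Nonempty → (∀ g ∈ N, ∀ w, tr w g ∈ N) → N = M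
  nc : ∀ g ∈ M, ∃ z z', g z ≠ g z'

/-- `z` is a noncritical point of `f` -/
def NC (A : Cha E X) (f : ℂ → X) (z : ℂ) : Prop :=
  ∀ i, f z ∈ (A.ch i).source → deriv (A.loc i f) z ≠ 0

/-- the derivatives of `f` of the orders `1, …, s` vanish at `z` -/
def VanAt (A : Cha E X) (s : ℕ) (f : ℂ → X) (z : ℂ) : Prop :=
  ∀ i, f z ∈ (A.ch i).source → ∀ q, 1 ≤ q → q ≤ s → iteratedDeriv q (A.loc i f) z = 0

/-- `f` is stable: near a critical point of `f` every member of `M` near `f` has a critical point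
of at least the same order -/
def Stable (A : Cha E X) (M : Set (ℂ → X)) (f : ℂ → X) : Prop :=
  ∀ s z, VanAt A s f z → ∀ ε > 0, ∀ᶠ h in 𝓝[M] f, ∃ z', ‖z' - z‖ < ε ∧ VanAt A s h z'

/-! ## samples -/

/-- `ζ` is a sample point of `g`: a quantitative noncritical point -/
def Smp (θ ε : ℝ) (g : ℂ → X) (ζ : ℂ) : Prop :=
  ∀ u, ‖u - ζ‖ ≤ ε → θ * ‖u - ζ‖ ≤ dist (g ζ) (g u)

/-- at the sample points of `g` near `z` the curve `h` is `K`-near to `g` -/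
def Mle (θ ε : ℝ) (g h : ℂ → X) (z : ℂ) (K : ℝ) : Prop :=
  ∀ ζ, ‖ζ - z‖ ≤ 2 → Smp θ ε g ζ → ∃ u, ‖u - ζ‖ ≤ ε ∧ dist (g ζ) (h u) ≤ K

/-- uniform sample circles for the members of `M` -/
structure SmpC (M : Set (ℂ → X)) (θ ε : ℝ) : Prop where
  θ_pos : 0 < θ
  ε_pos : 0 < ε
  ε_le : ε ≤ 1
  circ : ∀ f ∈ M, ∃ s, 1 < s ∧ s < 2 ∧ ∃ η > 0, ∀ᶠ g in 𝓝[M] f, ∀ ζ : ℂ,
    s - η < ‖ζ‖ → ‖ζ‖ < s + η → Smp θ ε g ζ

/-- `h` is `m`-near to `g` near the point `z` (with time changes near the identity) -/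
def NN {κ : Type} (F : Filter κ) (g h : κ → ℂ → X) (m : κ → ℝ) (z : ℂ) : Prop :=
  ∃ ρ > 0, ∃ B : ℝ, ∀ ε > 0, ∀ᶠ k in F, ∀ ζ ∈ ball z ρ, ∃ u, ‖u - ζ‖ ≤ ε ∧
    dist (g k ζ) (h k u) ≤ B * m k

/-- uniform propagation -/
def HH (M : Set (ℂ → X)) (θ ε C₀ R δ : ℝ) : Prop :=
  ∀ g ∈ M, ∀ h ∈ M, ∀ (z : ℂ) (K : ℝ), 0 ≤ K → (∀ w, ‖w - z‖ ≤ R → dist (g w) (h w) ≤ δ) →
    Mle θ ε g h z K → ∀ z', ‖z' - z‖ ≤ 1 → Mle θ ε g h z' (C₀ * K)

/-! ## jets -/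

/-- `c` is holomorphic near `0` -/
def Ger (A : Cha E X) (c : ℂ → X) : Prop := ∀ᶠ z in 𝓝 (0 : ℂ), A.HolAt c z

/-- the `k`-jet of `c` at `0` in the chart `i` -/
noncomputable def jt (A : Cha E X) (k : ℕ) (i : A.ι) (c : ℂ → X) : Fin (k + 1) → E :=
  fun q => iteratedDeriv q (A.loc i c) 0

/-- `P` is an invariant jet differential of order `k` and weight `m`, which does not vanish
identically on any open set; `Q i` is its expression in the chart `i` -/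
structure JD (A : Cha E X) (k m : ℕ) (P : (ℂ → X) → ℂ) (Q : A.ι → (Fin (k + 1) → E) → ℂ) :
    Prop where
  pos : 0 < m
  an : ∀ i s, s 0 ∈ (A.ch i).target → AnalyticAt ℂ (Q i) s
  eq : ∀ i c, Ger A c → c 0 ∈ (A.ch i).source → P c = Q i (jt A k i c)
  inv : ∀ c, Ger A c → ∀ ψ : ℂ → ℂ, AnalyticAt ℂ ψ 0 → ψ 0 = 0 →
    P (fun z => c (ψ z)) = (deriv ψ 0) ^ m * P c
  sing : ∀ i c, Ger A c → c 0 ∈ (A.ch i).source → deriv (A.loc i c) 0 = 0 → P c = 0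
  ne : ∀ V : Set X, IsOpen V → V.Nonempty → ∃ c, Ger A c ∧ c 0 ∈ V ∧ P c ≠ 0

/-- the function `Q` vanishes on all jets whose entries of index `< p` are those of `f` at `z` -/
def Zp (A : Cha E X) {k : ℕ} (Q : A.ι → (Fin (k + 1) → E) → ℂ) (p : ℕ) (f : ℂ → X) (z : ℂ) :
    Prop :=
  ∀ i, f z ∈ (A.ch i).source → ∀ s : Fin (k + 1) → E, s 0 ∈ (A.ch i).target →
    (∀ q : Fin (k + 1), (q : ℕ) < p → s q = iteratedDeriv q (A.loc i f) z) → Q i s = 0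

/-- the function `Q i` vanishes to order `μ` in the entry `p`, along all jets whose entries of index
`≤ p` are those of `c` -/
def OC (A : Cha E X) {k : ℕ} (Q : A.ι → (Fin (k + 1) → E) → ℂ) (p : Fin (k + 1)) (μ : ℕ) (i : A.ι)
    (c : ℂ → X) : Prop :=
  ∀ s : Fin (k + 1) → E, (∀ q ≤ p, s q = jt A k i c q) → ∀ e : E, ∀ n < μ,
    iteratedDeriv n (fun a : ℂ => Q i (s + a • (Pi.single p e : Fin (k + 1) → E))) 0 = 0

/-- the reparametrised germs of the members of `M` -/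
def Rp (M : Set (ℂ → X)) : Set (ℂ → X) :=
  {c | ∃ h ∈ M, ∃ χ : ℂ → ℂ, AnalyticAt ℂ χ 0 ∧ deriv χ 0 ≠ 0 ∧ c = fun z => h (χ z)}

/-- a regular equation of order `p` for the reparametrised germs of the members of `M`, near the
germ `c` -/
def Reg (A : Cha E X) (k : ℕ) (M : Set (ℂ → X)) (p : Fin (k + 1)) (i : A.ι) (c : ℂ → X) : Prop :=
  ∃ Φ : (Fin (k + 1) → E) → ℂ, AnalyticAt ℂ Φ (jt A k i c) ∧
    (∀ v, LinearIndependent ℂ ![v, deriv (A.loc i c) 0] →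
      fderiv ℂ Φ (jt A k i c) (Pi.single p v : Fin (k + 1) → E) ≠ 0) ∧
    ∀ᶠ s in 𝓝 (jt A k i c), ∀ d ∈ Rp M, d 0 ∈ (A.ch i).source →
      (∀ q ≤ p, s q = jt A k i d q) → Φ s = 0

/-- the regularity of `M`: every member satisfies a regular equation off a countable closed set -/
def Regular (A : Cha E X) (k : ℕ) (M : Set (ℂ → X)) : Prop :=
  ∃ p : Fin (k + 1), ∀ f ∈ M, ∃ B : Set ℂ, IsClosed B ∧ B.Countable ∧ ∀ z ∉ B, ∀ i,
    f z ∈ (A.ch i).source → ∀ χ : ℂ → ℂ, AnalyticAt ℂ χ 0 → χ 0 = z → deriv χ 0 ≠ 0 →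
      Reg A k M p i (fun ζ => f (χ ζ))

/-! ## windows -/

/-- a window for the members of `M` near `f`, near the noncritical point `z₀`: the curves near `f`
are graphs over the disc of radius `ρ` around `l (f z₀)` -/
structure Win (A : Cha E X) (M : Set (ℂ → X)) (f : ℂ → X) (z₀ : ℂ) (i : A.ι) (l : E →L[ℂ] ℂ)
    (lam r ρ B : ℝ) (V : Set (ℂ → X)) (u : (ℂ → X) → ℂ → ℂ) : Prop where
  r_pos : 0 < r
  ρ_pos : 0 < ρ
  B_pos : 0 < B
  V_mem : V ∈ 𝓝[M] f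
  f_mem : f ∈ V
  V_sub : V ⊆ M
  core : f z₀ ∈ A.W i
  near : ∀ h ∈ V, ∀ z ∈ ball z₀ r, h z ∈ ball (f z₀) lam
  an : ∀ h ∈ V, ∀ z ∈ ball z₀ r, AnalyticAt ℂ (A.loc i h) z
  up : ∀ h ∈ V, ∀ z ∈ ball z₀ r, ∀ z' ∈ ball z₀ r,
    ‖A.loc i h z - A.loc i h z'‖ ≤ B * ‖z - z'‖
  lo : ∀ h ∈ V, ∀ z ∈ ball z₀ r, ∀ z' ∈ ball z₀ r,
    ‖z - z'‖ ≤ B * ‖l (A.loc i h z) - l (A.loc i h z')‖
  mem : ∀ h ∈ V, ∀ x ∈ ball (l (A.loc i f z₀)) ρ, u h x ∈ ball z₀ r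
  u_an : ∀ h ∈ V, ∀ x ∈ ball (l (A.loc i f z₀)) ρ, AnalyticAt ℂ (u h) x
  eq : ∀ h ∈ V, ∀ x ∈ ball (l (A.loc i f z₀)) ρ, l (A.loc i h (u h x)) = x

/-- the graph of `h` in the window -/
noncomputable def gr (A : Cha E X) (i : A.ι) (u : (ℂ → X) → ℂ → ℂ) (h : ℂ → X) : ℂ → E :=
  fun x => A.loc i h (u h x)

/-! ## the section -/

/-- `v` is the value at `z` of the section defined by the linearised displacement of the curves
`h k` from `f` -/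
def IsSig (A : Cha E X) {L k : ℕ} (F : A.Frm L k) {κ : Type} (U : Filter κ) (f : ℂ → X)
    (h : κ → ℂ → X) (m : κ → ℝ) (z : ℂ) (v : EuclideanSpace ℂ (Fin L)) : Prop :=
  ∀ i, f z ∈ (A.ch i).source → ∀ u : κ → ℂ, Tendsto u U (𝓝 z) →
    (∃ B : ℝ, ∀ᶠ n in U, dist (f z) (h n (u n)) ≤ B * m n) →
      Tendsto (fun n => F.T i (A.loc i f z) (((m n : ℂ))⁻¹ • (A.loc i (h n) (u n) - A.loc i f z))
        (deriv (A.loc i f) z)) U (𝓝 v)

end fam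

end Pool.Agent.MBS
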